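import Pool.Agent.H40.Dol.Final

/-!
# MP_70580c_co: the conjecture of Dol'nikov on colourful point sets and translates

Let `K` be a non-empty compact convex set in the Euclidean plane and let `X 0`, `X 1`, `X 2` be
non-empty finite point sets such that `ρ(x, y) ≤ 2` whenever `x` and `y` lie in different sets,
where `ρ` is the Minkowski metric with unit ball `(1/2) (K + (-K))`.  Then one of the three sets
is covered by three translates of `K`.
-/

namespace Pool.Agent.Results.MP_70580c_co.Dolnikov

open Pool.Agent.H57.Dol
open scoped Pointwise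

/-- One of the three sets is covered by three translates of `K`. -/
theorem result (K : Set Plane) (hne : K.Nonempty) (hK : IsCompact K) (hc : Convex ℝ K)
    (X : Fin 3 → Set Plane) (hfin : ∀ i, (X i).Finite) (_hX : ∀ i, (X i).Nonempty)
    (h : ∀ i j, i ≠ j → ∀ x ∈ X i, ∀ y ∈ X j, rho K x y ≤ 2) :
    ∃ m, ∃ v : Fin 3 → Plane, X m ⊆ ⋃ k, (v k +ᵥ K) :=
  H40Dol.plane_case K hne hK hc X hfin
    fun i j hij x hx y hy => mem_of_rho_le hK hc hne (h i j hij x hx y hy)

end Pool.Agent.Results.MP_70580c_co.Dolnikov
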