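import Pool.Agent.H57.Dol.Four

/-!
# MP_70580c_co: four translates are enough, already for two colours

Let `K` be a non-empty compact convex set in the plane and `X i`, `i ∈ ι`, at least two non-empty
point sets such that points of different sets are at Minkowski distance at most `2`. Then for some
`j` the union of all `X i` with `i ≠ j` is covered by four translates of `K`.
-/

namespace Pool.Agent.Results.MP_70580c_co.FourTranslates

open Pool.Agent.H57.Dol
open scoped Pointwise

/-- Four translates of `K` cover all the sets but one. -/
theorem result (K : Set Plane) (hK : IsCompact K) (hc : Convex ℝ K) (hne : K.Nonempty)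
    {ι : Type} [Nontrivial ι] (X : ι → Set Plane) (hX : ∀ i, (X i).Nonempty)
    (h : ∀ i j, i ≠ j → ∀ x ∈ X i, ∀ y ∈ X j, rho K x y ≤ 2) :
    ∃ j, ∃ v : Fin 4 → Plane, (⋃ i ∈ {i | i ≠ j}, X i) ⊆ ⋃ k, (v k +ᵥ K) :=
  four_translates hK hc hne X hX fun i j hij x hx y hy => mem_of_rho_le hK hc hne (h i j hij x hx y hy)

end Pool.Agent.Results.MP_70580c_co.FourTranslates
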